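import Mathlib

/-!
Monochromatic tree partitions of edge-coloured graphs.
-/

namespace Pool.Agent.MP_4e8562_co.H97

open Finset

/-- `T` is a monochromatic tree: a subgraph that is a tree and whose edges all have one colour. -/
def MonoTree {V : Type} {r : ℕ} (G : SimpleGraph V) (χ : G.edgeSet → Fin r) (T : G.Subgraph) :
    Prop :=
  T.coe.IsTree ∧ ∃ i : Fin r, ∀ e : G.edgeSet, e.1 ∈ T.edgeSet → χ e = i

/-- The tree partition number: the least `k` such that for every `r`-colouring of the edges the
vertex set is partitioned into the vertex sets of at most `k` monochromatic trees. -/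
noncomputable def tp {V : Type} (r : ℕ) (G : SimpleGraph V) : ℕ :=
  sInf {k | ∀ χ : G.edgeSet → Fin r, ∃ 𝒯 : Finset G.Subgraph, #𝒯 ≤ k ∧
    (∀ T ∈ 𝒯, MonoTree G χ T) ∧ ∀ v : V, ∃! T, T ∈ 𝒯 ∧ v ∈ T.verts}

/-- `F r x = ⌊(r - 1) x / r⌋` -/
def F (r x : ℕ) : ℕ := (r - 1) * x / r

/-- There is an orthogonal array of strength `i` and index one with `n` columns over `r` symbols:
a set of words of length `n` whose restriction to any `i` coordinates shows each pattern once. -/
def HasOA (r n i : ℕ) : Prop :=
  ∃ C : Finset (Fin n → Fin r), ∀ T : Finset (Fin n), #T = i → ∀ v : Fin n → Fin r,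
    ∃! w, w ∈ C ∧ ∀ a ∈ T, w a = v a

/-- The largest `k` for which some list of `x` words of length `n` over `r` symbols has, for every
word `c`, at least `k` members that differ from `c` in every coordinate. -/
noncomputable def Psi (r n x : ℕ) : ℕ :=
  sSup {k | ∃ W : Fin x → Fin n → Fin r, ∀ c : Fin n → Fin r, k ≤ #{b | ∀ a, W b a ≠ c a}}

end Pool.Agent.MP_4e8562_co.H97
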