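import Mathlib
import Pool.Agent.MP_4e8562_co.H97.Defs

/-!
Building tree partitions from a parent function, and the basic lower bound.
-/

namespace Pool.Agent.MP_4e8562_co.H97

open Finset

/-- partitions into at most `k` monochromatic trees -/
def Part {V : Type} {r : ℕ} (G : SimpleGraph V) (χ : G.edgeSet → Fin r) (k : ℕ) : Prop :=
  ∃ 𝒯 : Finset G.Subgraph, #𝒯 ≤ k ∧ (∀ T ∈ 𝒯, MonoTree G χ T) ∧
    ∀ v : V, ∃! T, T ∈ 𝒯 ∧ v ∈ T.verts

theorem Part.mono {V : Type} {r : ℕ} {G : SimpleGraph V} {χ : G.edgeSet → Fin r} {k l : ℕ}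
    (h : Part G χ k) (hkl : k ≤ l) : Part G χ l := by
  obtain ⟨𝒯, h1, h2, h3⟩ := h
  exact ⟨𝒯, h1.trans hkl, h2, h3⟩

theorem exists_tree {V : Type} {r : ℕ} (G : SimpleGraph V) (χ : G.edgeSet → Fin r)
    (X : Set V) (i : Fin r) (z : V) (hz : z ∈ X) (par : V → V) (d : V → ℕ)
    (h : ∀ v ∈ X, v ≠ z → par v ∈ X ∧ d (par v) < d v ∧
      ∃ he : G.Adj v (par v), χ ⟨s(v, par v), he⟩ = i) :
    ∃ T : G.Subgraph, MonoTree G χ T ∧ T.verts = X := by
  let H : SimpleGraph X :=
    { Adj := fun u v => ∃ he : G.Adj u v, χ ⟨s(u.1, v.1), he⟩ = i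
      symm := ⟨by
        rintro u v ⟨he, hc⟩
        refine ⟨he.symm, ?_⟩
        rw [← hc]
        congr 2
        exact Sym2.eq_swap⟩
      loopless := ⟨by
        rintro u ⟨he, _⟩
        exact G.loopless.irrefl _ he⟩ }
  have hreach : ∀ k : ℕ, ∀ v : X, d v.1 = k → H.Reachable v ⟨z, hz⟩ := by
    intro k
    induction k using Nat.strong_induction_on with
    | _ k ih =>
      intro v hv
      by_cases hvz : v.1 = z
      · have : v = ⟨z, hz⟩ := Subtype.ext hvz
        rw [this]
      · obtain ⟨h1, h2, h3⟩ := h v.1 v.2 hvz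
        have hadj : H.Adj v ⟨par v.1, h1⟩ := h3
        exact hadj.reachable.trans (ih _ (hv ▸ h2) ⟨par v.1, h1⟩ rfl)
  have hconn : H.Connected := by
    have : Nonempty X := ⟨⟨z, hz⟩⟩
    exact ⟨fun u v => (hreach _ u rfl).trans (hreach _ v rfl).symm⟩
  obtain ⟨T, hle, hT⟩ := hconn.exists_isTree_le
  let S : G.Subgraph :=
    { verts := X
      Adj := fun u v => ∃ (hu : u ∈ X) (hv : v ∈ X), T.Adj ⟨u, hu⟩ ⟨v, hv⟩
      adj_sub := by
        rintro u v ⟨hu, hv, ha⟩
        exact (hle ha).1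
      edge_vert := by
        rintro u v ⟨hu, _, _⟩
        exact hu
      symm := ⟨by
        rintro u v ⟨hu, hv, ha⟩
        exact ⟨hv, hu, ha.symm⟩⟩ }
  refine ⟨S, ⟨?_, i, ?_⟩, rfl⟩
  · have : S.coe = T := by
      ext u v
      constructor
      · rintro ⟨_, _, ha⟩
        exact ha
      · intro ha
        exact ⟨u.2, v.2, ha⟩
    rw [this]
    exact hT
  · rintro ⟨e, he⟩ hs
    induction e using Sym2.ind with
    | _ u v =>
      obtain ⟨hu, hv, ha⟩ := hs
      exact (hle ha).2

theorem part_of_parent {V : Type} [Fintype V] [DecidableEq V] {r : ℕ} (G : SimpleGraph V)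
    (χ : G.edgeSet → Fin r) (root par : V → V) (col : V → Fin r) (d : V → ℕ)
    (hroot : ∀ v, root (root v) = root v)
    (h : ∀ v, v ≠ root v → root (par v) = root v ∧ d (par v) < d v ∧
      ∃ he : G.Adj v (par v), χ ⟨s(v, par v), he⟩ = col (root v)) :
    Part G χ #{v | root v = v} := by
  classical
  have key : ∀ z, root z = z → ∃ T : G.Subgraph, MonoTree G χ T ∧ T.verts = {v | root v = z} := by
    intro z hz
    refine exists_tree G χ {v | root v = z} (col z) z hz par d ?_
    intro v hv hvz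
    have hv' : root v = z := hv
    obtain ⟨h1, h2, h3⟩ := h v (by rw [hv']; exact hvz)
    refine ⟨h1.trans hv', h2, ?_⟩
    rw [← hv']
    exact h3
  choose! tr htr using key
  refine ⟨({v | root v = v} : Finset V).image tr, card_image_le, ?_, ?_⟩
  · intro T hT
    obtain ⟨z, hz, rfl⟩ := mem_image.mp hT
    exact (htr z (mem_filter.mp hz).2).1
  · intro v
    refine ⟨tr (root v), ⟨mem_image_of_mem _ (by simp [hroot]), ?_⟩, ?_⟩
    · rw [(htr _ (hroot v)).2]
      rfl
    · rintro T ⟨hT, hv⟩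
      obtain ⟨z, hz, rfl⟩ := mem_image.mp hT
      rw [(htr z (mem_filter.mp hz).2).2] at hv
      have hv' : root v = z := hv
      rw [hv']

/-- the complete bipartite graph -/
abbrev K (n m : ℕ) : SimpleGraph (Fin n ⊕ Fin m) := completeBipartiteGraph (Fin n) (Fin m)

theorem K_adj {n m : ℕ} (a : Fin n) (b : Fin m) : (K n m).Adj (Sum.inl a) (Sum.inr b) := by
  simp

/-- the colour vectors of a colouring -/
def vec {n m r : ℕ} (χ : (K n m).edgeSet → Fin r) (b : Fin m) (a : Fin n) : Fin r :=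
  χ ⟨s(Sum.inl a, Sum.inr b), K_adj a b⟩

theorem exists_colouring {n m r : ℕ} (W : Fin m → Fin n → Fin r) :
    ∃ χ : (K n m).edgeSet → Fin r, vec χ = W := by
  have key : ∀ e : (K n m).edgeSet, ∃ i : Fin r, ∀ a b, e.1 = s(Sum.inl a, Sum.inr b) →
      i = W b a := by
    rintro ⟨e, he⟩
    induction e using Sym2.ind with
    | _ u v =>
      rcases u with a | b <;> rcases v with a' | b'
      · simp at he
      · refine ⟨W b' a, fun a b h => ?_⟩
        simp at h
        rw [h.1, h.2]
      · refine ⟨W b a', fun a b h => ?_⟩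
        simp at h
        rw [h.1, h.2]
      · simp at he
  choose χ hχ using key
  refine ⟨χ, ?_⟩
  funext b a
  exact hχ _ a b rfl

/-- number of words that differ from `c` everywhere -/
def av {n m r : ℕ} (W : Fin m → Fin n → Fin r) (c : Fin n → Fin r) : ℕ :=
  #{b | ∀ a, W b a ≠ c a}

theorem lower_part {n m r k : ℕ} (hr : 0 < r) (χ : (K n m).edgeSet → Fin r)
    (h : Part (K n m) χ k) :
    ∃ c : Fin n → Fin r, #(univ.image c) + av (vec χ) c ≤ k := by
  classical
  have : Nonempty (Fin r) := ⟨⟨0, hr⟩⟩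
  obtain ⟨𝒯, h1, h2, h3⟩ := h
  choose tr htr huniq using h3
  choose! col hcol using fun T hT => (h2 T hT).2
  let c : Fin n → Fin r := fun a => col (tr (Sum.inl a))
  refine ⟨c, le_trans ?_ h1⟩
  have hsingle : ∀ b : Fin m, (∀ a, vec χ b a ≠ c a) → ∀ v ∈ (tr (Sum.inr b)).verts,
      v = Sum.inr b := by
    intro b hb v hv
    by_contra hne
    have hT := (h2 _ (htr (Sum.inr b)).1).1
    obtain ⟨p⟩ := hT.connected.preconnected ⟨Sum.inr b, (htr (Sum.inr b)).2⟩ ⟨v, hv⟩
    cases p with
    | nil => exact hne rfl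
    | @cons _ w _ hadj _ =>
      have hadj' : (tr (Sum.inr b)).Adj (Sum.inr b) w.1 := hadj
      have hG := (tr (Sum.inr b)).adj_sub hadj'
      obtain ⟨w, hw⟩ := w
      rcases w with a | b'
      · have h4 : tr (Sum.inr b) = tr (Sum.inl a) := huniq _ _ ⟨(htr (Sum.inr b)).1, hw⟩
        apply hb a
        have := hcol _ (htr (Sum.inr b)).1 ⟨s(Sum.inl a, Sum.inr b), K_adj a b⟩ hadj'.symm
        rw [vec, this, h4]
      · simp at hG
  let A : Finset (K n m).Subgraph := univ.image fun a => tr (Sum.inl a)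
  let B : Finset (K n m).Subgraph :=
    ({b | ∀ a, vec χ b a ≠ c a} : Finset (Fin m)).image fun b => tr (Sum.inr b)
  have hA : #(univ.image c) ≤ #A := by
    have : univ.image c = A.image col := by
      simp only [A, image_image]
      rfl
    rw [this]
    exact card_image_le
  have hB : av (vec χ) c = #B := by
    rw [card_image_of_injOn]
    · rfl
    · intro b hb b' _ hbb
      have hb1 := (mem_filter.mp hb).2
      have := hsingle b hb1 (Sum.inr b') (by
        have h5 : tr (Sum.inr b) = tr (Sum.inr b') := hbb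
        rw [h5]
        exact (htr _).2)
      exact (Sum.inr.inj this).symm
  have hdis : Disjoint A B := by
    rw [disjoint_left]
    intro T hTA hTB
    obtain ⟨a, _, rfl⟩ := mem_image.mp hTA
    obtain ⟨b, hb, hb2⟩ := mem_image.mp hTB
    have := hsingle b (mem_filter.mp hb).2 (Sum.inl a) (by
      rw [hb2]
      exact (htr _).2)
    simp at this
  have hsub : A ∪ B ⊆ 𝒯 := by
    intro T hT
    rcases mem_union.mp hT with hT | hT
    · obtain ⟨a, _, rfl⟩ := mem_image.mp hT
      exact (htr _).1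
    · obtain ⟨b, _, rfl⟩ := mem_image.mp hT
      exact (htr _).1
  calc #(univ.image c) + av (vec χ) c ≤ #A + #B := by omega
    _ = #(A ∪ B) := (card_union_of_disjoint hdis).symm
    _ ≤ #𝒯 := card_le_card hsub

end Pool.Agent.MP_4e8562_co.H97
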