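import Mathlib
import Pool.Agent.MP_4e8562_co.H97.Trees

/-!
Star and hub partitions, and basic facts on `Psi`.
-/

namespace Pool.Agent.MP_4e8562_co.H97

open Finset

theorem star_part {n m r : ℕ} (hr : 0 < r) (χ : (K n m).edgeSet → Fin r) (c : Fin n → Fin r) :
    Part (K n m) χ (n + av (vec χ) c) := by
  classical
  let root : Fin n ⊕ Fin m → Fin n ⊕ Fin m := fun v =>
    match v with
    | Sum.inl a => Sum.inl a
    | Sum.inr b => if h : ∃ a, vec χ b a = c a then Sum.inl h.choose else Sum.inr b
  let col : Fin n ⊕ Fin m → Fin r := fun v =>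
    match v with
    | Sum.inl a => c a
    | Sum.inr _ => ⟨0, hr⟩
  let d : Fin n ⊕ Fin m → ℕ := fun v =>
    match v with
    | Sum.inl _ => 0
    | Sum.inr _ => 1
  have h := part_of_parent (K n m) χ root root col d ?_ ?_
  · refine h.mono ?_
    have hsub : ({v | root v = v} : Finset (Fin n ⊕ Fin m)) ⊆
        (univ.image Sum.inl) ∪
          (({b | ∀ a, vec χ b a ≠ c a} : Finset (Fin m)).image Sum.inr) := by
      intro v hv
      have hv' := (mem_filter.mp hv).2
      rcases v with a | b
      · simp
      · by_cases h : ∃ a, vec χ b a = c a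
        · simp [root, h] at hv'
        · push Not at h
          simp [h]
    calc _ ≤ _ := card_le_card hsub
      _ ≤ _ := card_union_le _ _
      _ ≤ n + av (vec χ) c := by
        refine add_le_add (card_image_le.trans (by simp)) card_image_le
  · intro v
    rcases v with a | b
    · rfl
    · by_cases h : ∃ a, vec χ b a = c a
      · simp [root, h]
      · simp [root, h]
  · intro v hv
    rcases v with a | b
    · exact absurd rfl hv
    · by_cases h : ∃ a, vec χ b a = c a
      · have h1 : root (Sum.inr b) = Sum.inl h.choose := by simp [root, h]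
        rw [h1]
        refine ⟨rfl, by simp [d], (K_adj _ _).symm, ?_⟩
        have h2 := h.choose_spec
        simp only [col]
        rw [← h2, vec]
        congr 2
        exact Sym2.eq_swap
      · exact absurd (by simp [root, h]) hv

theorem hub_part {n m r : ℕ} (hn : 0 < n) (χ : (K n m).edgeSet → Fin r) (hub : Fin r → Fin m)
    (hhub : ∀ i a, vec χ (hub i) a = i) (c : Fin n → Fin r) :
    Part (K n m) χ (r + #{b | (∀ i, hub i ≠ b) ∧ ∀ a, vec χ b a ≠ c a}) := by
  classical
  let root : Fin n ⊕ Fin m → Fin n ⊕ Fin m := fun v =>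
    match v with
    | Sum.inl a => Sum.inr (hub (c a))
    | Sum.inr b => if ∃ i, hub i = b then Sum.inr b else
        if h : ∃ a, vec χ b a = c a then Sum.inr (hub (c h.choose)) else Sum.inr b
  let par : Fin n ⊕ Fin m → Fin n ⊕ Fin m := fun v =>
    match v with
    | Sum.inl a => Sum.inr (hub (c a))
    | Sum.inr b => if h : ∃ a, vec χ b a = c a then Sum.inl h.choose else Sum.inr b
  let col : Fin n ⊕ Fin m → Fin r := fun v =>
    match v with
    | Sum.inl a => c a
    | Sum.inr b => vec χ b ⟨0, hn⟩
  let d : Fin n ⊕ Fin m → ℕ := fun v =>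
    match v with
    | Sum.inl _ => 1
    | Sum.inr b => if ∃ i, hub i = b then 0 else 2
  have hrh : ∀ i, root (Sum.inr (hub i)) = Sum.inr (hub i) := by
    intro i
    simp [root]
  have h := part_of_parent (K n m) χ root par col d ?_ ?_
  · refine h.mono ?_
    have hsub : ({v | root v = v} : Finset (Fin n ⊕ Fin m)) ⊆
        (univ.image fun i => Sum.inr (hub i)) ∪
          (({b | (∀ i, hub i ≠ b) ∧ ∀ a, vec χ b a ≠ c a} : Finset (Fin m)).image Sum.inr) := by
      intro v hv
      have hv' := (mem_filter.mp hv).2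
      rcases v with a | b
      · simp [root] at hv'
      · by_cases h0 : ∃ i, hub i = b
        · obtain ⟨i, rfl⟩ := h0
          simp
        · by_cases h : ∃ a, vec χ b a = c a
          · simp only [root, h0, h, if_false, dif_pos, Sum.inr.injEq] at hv'
            exact absurd ⟨_, hv'⟩ h0
          · push Not at h h0
            simp [h, h0]
    calc _ ≤ _ := card_le_card hsub
      _ ≤ _ := card_union_le _ _
      _ ≤ _ := by
        refine add_le_add (card_image_le.trans (by simp)) card_image_le
  · intro v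
    rcases v with a | b
    · exact hrh _
    · by_cases h0 : ∃ i, hub i = b
      · obtain ⟨i, rfl⟩ := h0
        rw [hrh, hrh]
      · by_cases h : ∃ a, vec χ b a = c a
        · have h1 : root (Sum.inr b) = Sum.inr (hub (c h.choose)) := by simp [root, h, h0]
          rw [h1, hrh]
        · have h1 : root (Sum.inr b) = Sum.inr b := by simp [root, h, h0]
          rw [h1, h1]
  · intro v hv
    rcases v with a | b
    · refine ⟨hrh _, by simp [d, par], K_adj _ _, ?_⟩
      have h1 := hhub (c a) a
      have h2 := hhub (c a) ⟨0, hn⟩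
      simp only [col, root, par]
      rw [h2]
      exact h1
    · by_cases h0 : ∃ i, hub i = b
      · obtain ⟨i, rfl⟩ := h0
        exact absurd (hrh i).symm hv
      · by_cases h : ∃ a, vec χ b a = c a
        · have h1 : root (Sum.inr b) = Sum.inr (hub (c h.choose)) := by simp [root, h, h0]
          have h3 : par (Sum.inr b) = Sum.inl h.choose := by simp [par, h]
          rw [h1, h3]
          refine ⟨rfl, by simp [d, h0], (K_adj _ _).symm, ?_⟩
          have h2 := h.choose_spec
          simp only [col]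
          rw [hhub, ← h2, vec]
          congr 2
          exact Sym2.eq_swap
        · exact absurd (by simp [root, h, h0]) hv

theorem tp_eq {n m r k : ℕ} (hr : 0 < r) (hup : ∀ χ : (K n m).edgeSet → Fin r, Part (K n m) χ k)
    (W : Fin m → Fin n → Fin r) (hlow : ∀ c, k ≤ #(univ.image c) + av W c) :
    tp r (K n m) = k := by
  apply le_antisymm
  · exact Nat.sInf_le hup
  · refine le_csInf ⟨k, hup⟩ ?_
    intro l hl
    obtain ⟨χ, hχ⟩ := exists_colouring W
    obtain ⟨c, hc⟩ := lower_part hr χ (hl χ)
    rw [hχ] at hc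
    exact (hlow c).trans hc

theorem Psi_bdd {r n x : ℕ} (hr : 0 < r) :
    BddAbove {k | ∃ W : Fin x → Fin n → Fin r, ∀ c : Fin n → Fin r,
      k ≤ #{b | ∀ a, W b a ≠ c a}} := by
  refine ⟨x, ?_⟩
  rintro k ⟨W, hW⟩
  exact (hW fun _ => ⟨0, hr⟩).trans ((card_le_univ _).trans (by simp))

theorem Psi_spec {r : ℕ} (hr : 0 < r) (n x : ℕ) :
    ∃ W : Fin x → Fin n → Fin r, ∀ c, Psi r n x ≤ av W c :=
  Nat.sSup_mem (s := {k | ∃ W : Fin x → Fin n → Fin r, ∀ c : Fin n → Fin r,
      k ≤ #{b | ∀ a, W b a ≠ c a}}) ⟨0, fun _ _ => ⟨0, hr⟩, fun _ => Nat.zero_le _⟩ (Psi_bdd hr)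

theorem le_Psi {r n x k : ℕ} (hr : 0 < r) (W : Fin x → Fin n → Fin r) (h : ∀ c, k ≤ av W c) :
    k ≤ Psi r n x :=
  le_csSup (Psi_bdd hr) ⟨W, h⟩

theorem exists_le_Psi {r n x : ℕ} (hr : 0 < r) {β : Type} (S : Finset β) (hS : #S = x)
    (W : β → Fin n → Fin r) : ∃ c : Fin n → Fin r, #{b ∈ S | ∀ a, W b a ≠ c a} ≤ Psi r n x := by
  classical
  by_contra hcon
  push Not at hcon
  let e : Fin x ≃ S := (Finset.equivFinOfCardEq hS).symm
  have h := le_Psi (k := Psi r n x + 1) hr (fun b => W (e b)) (fun c => by
    refine (Nat.succ_le_of_lt (hcon c)).trans (le_of_eq ?_)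
    symm
    refine card_bij (fun b _ => (e b).1) ?_ ?_ ?_
    · intro b hb
      exact mem_filter.mpr ⟨(e b).2, (mem_filter.mp hb).2⟩
    · intro b _ b' _ hbb
      exact e.injective (Subtype.ext hbb)
    · intro b hb
      refine ⟨e.symm ⟨b, (mem_filter.mp hb).1⟩, ?_, by simp⟩
      simpa using (mem_filter.mp hb).2)
  omega

theorem lower_word {r n x : ℕ} (W' : Fin x → Fin n → Fin r) :
    ∃ W : Fin (r + x) → Fin n → Fin r, ∀ c, r + av W' c ≤ #(univ.image c) + av W c := by
  classical
  refine ⟨Fin.append (fun i _ => i) W', fun c => ?_⟩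
  have h1 : av (Fin.append (fun (i : Fin r) (_ : Fin n) => i) W') c =
      #{i : Fin r | ∀ a, i ≠ c a} + av W' c := by
    simp only [av, card_filter]
    rw [Fin.sum_univ_add]
    simp
  have h2 : #(univ.image c) + #{i : Fin r | ∀ a, i ≠ c a} = r := by
    have h3 : ({i : Fin r | ∀ a, i ≠ c a} : Finset (Fin r)) = (univ.image c)ᶜ := by
      ext i
      simp [eq_comm]
    rw [h3, card_add_card_compl]
    simp
  omega

end Pool.Agent.MP_4e8562_co.H97
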