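import Mathlib
import Pool.Agent.MP_4e8562_co.H97.Upper

/-!
The inverse of the avoidance operator, and the structure theorem.
-/

namespace Pool.Agent.MP_4e8562_co.H97

open Finset

/-- the kernel inverse to avoidance counting -/
noncomputable def Kk {n r : ℕ} (w v : Fin n → Fin r) : ℚ :=
  ∏ a, (((r : ℚ) - 1)⁻¹ - if w a = v a then 1 else 0)

theorem Kk_symm {n r : ℕ} (w v : Fin n → Fin r) : Kk w v = Kk v w := by
  simp only [Kk, eq_comm]

theorem sum_pi_prod {n r : ℕ} (f : Fin n → Fin r → ℚ) :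
    ∑ w : Fin n → Fin r, ∏ a, f a (w a) = ∏ a, ∑ y, f a y := by
  rw [Finset.prod_univ_sum]
  simp

theorem Kk_avoid {n r : ℕ} (hr : 2 ≤ r) (c v : Fin n → Fin r) :
    ∑ w with (∀ a, w a ≠ c a), Kk w v = if c = v then 1 else 0 := by
  have hr' : (r : ℚ) - 1 ≠ 0 := by
    have : (2 : ℚ) ≤ r := by exact_mod_cast hr
    linarith
  have h1 : ∀ w : Fin n → Fin r, (if (∀ a, w a ≠ c a) then Kk w v else 0) =
      ∏ a, ((if w a = c a then 0 else 1) * (((r : ℚ) - 1)⁻¹ - if w a = v a then 1 else 0)) := by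
    intro w
    rw [prod_mul_distrib]
    by_cases h : ∀ a, w a ≠ c a
    · simp [h, Kk]
    · rw [if_neg h]
      push Not at h
      obtain ⟨a, ha⟩ := h
      rw [prod_eq_zero (mem_univ a) (by simp [ha]), zero_mul]
  rw [sum_filter, sum_congr rfl fun w _ => h1 w,
    sum_pi_prod fun a y => (if y = c a then 0 else 1) *
      (((r : ℚ) - 1)⁻¹ - if y = v a then 1 else 0)]
  have h2 : ∀ a, ∑ y : Fin r, (if y = c a then (0 : ℚ) else 1) *
      (((r : ℚ) - 1)⁻¹ - if y = v a then 1 else 0) = if c a = v a then 1 else 0 := by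
    intro a
    have h3 : ∀ y : Fin r, (if y = c a then (0 : ℚ) else 1) *
        (((r : ℚ) - 1)⁻¹ - if y = v a then 1 else 0) =
        ((r : ℚ) - 1)⁻¹ - (if y = c a then ((r : ℚ) - 1)⁻¹ else 0) - (if y = v a then 1 else 0) +
          (if y = c a then (if c a = v a then 1 else 0) else 0) := by
      intro y
      by_cases h4 : y = c a
      · subst h4
        simp
      · simp [h4]
    rw [sum_congr rfl fun y _ => h3 y, sum_add_distrib, sum_sub_distrib, sum_sub_distrib]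
    simp only [sum_const, card_univ, Fintype.card_fin, nsmul_eq_mul, sum_ite_eq', mem_univ,
      if_true]
    field_simp
    ring
  rw [prod_congr rfl fun a _ => h2 a]
  by_cases h : c = v
  · simp [h]
  · rw [if_neg h]
    obtain ⟨a, ha⟩ := Function.ne_iff.mp h
    exact prod_eq_zero (mem_univ a) (by simp [ha])

theorem Kk_sum {n r : ℕ} (hr : 2 ≤ r) (w : Fin n → Fin r) :
    ∑ v, Kk w v = (((r : ℚ) - 1)⁻¹) ^ n := by
  have hr' : (r : ℚ) - 1 ≠ 0 := by
    have : (2 : ℚ) ≤ r := by exact_mod_cast hr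
    linarith
  simp only [Kk]
  rw [sum_pi_prod fun a y => (((r : ℚ) - 1)⁻¹ - if w a = y then 1 else 0)]
  have h2 : ∀ a, ∑ y : Fin r, (((r : ℚ) - 1)⁻¹ - if w a = y then 1 else 0) = ((r : ℚ) - 1)⁻¹ := by
    intro a
    rw [sum_sub_distrib]
    simp only [sum_const, card_univ, Fintype.card_fin, nsmul_eq_mul, sum_ite_eq, mem_univ,
      if_true]
    field_simp
    ring
  rw [prod_congr rfl fun a _ => h2 a]
  simp

theorem Kk_abs {n r : ℕ} (hr : 2 ≤ r) (w v : Fin n → Fin r) : |Kk w v| ≤ 1 := by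
  have h2 : (2 : ℚ) ≤ r := by exact_mod_cast hr
  have h3 : 0 < ((r : ℚ) - 1)⁻¹ := inv_pos.mpr (by linarith)
  have h4 : ((r : ℚ) - 1)⁻¹ ≤ 1 := inv_le_one_of_one_le₀ (by linarith)
  rw [Kk, abs_prod]
  refine prod_le_one (fun a _ => abs_nonneg _) fun a _ => ?_
  rw [abs_le]
  split_ifs <;> constructor <;> linarith

theorem Kk_lower {n r : ℕ} (hr : 2 ≤ r) (w : Fin n → Fin r) (k : ℚ) (f : (Fin n → Fin r) → ℚ)
    (hf : ∀ v, k ≤ f v) :
    k * (((r : ℚ) - 1)⁻¹) ^ n - (∑ v, f v - (r : ℚ) ^ n * k) ≤ ∑ v, Kk w v * f v := by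
  have h1 : ∑ v, Kk w v * f v = k * (((r : ℚ) - 1)⁻¹) ^ n + ∑ v, Kk w v * (f v - k) := by
    rw [← Kk_sum hr w, mul_sum, ← sum_add_distrib]
    exact sum_congr rfl fun v _ => by ring
  have h2 : ∑ v, f v - (r : ℚ) ^ n * k = ∑ v, (f v - k) := by
    rw [sum_sub_distrib]
    simp
  rw [h1, h2, sub_eq_add_neg, ← sum_neg_distrib]
  refine add_le_add le_rfl (sum_le_sum fun v _ => ?_)
  have h3 := (abs_le.mp (Kk_abs hr w v)).1
  have h4 := sub_nonneg.mpr (hf v)
  nlinarith

theorem card_avoid {n r : ℕ} (w : Fin n → Fin r) :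
    #{c : Fin n → Fin r | ∀ a, w a ≠ c a} = (r - 1) ^ n := by
  have : ({c : Fin n → Fin r | ∀ a, w a ≠ c a} : Finset _) =
      Fintype.piFinset fun a => univ.erase (w a) := by
    ext c
    simp [eq_comm]
  rw [this, Fintype.card_piFinset]
  simp

theorem sum_av {n m r : ℕ} (W : Fin m → Fin n → Fin r) : ∑ c, av W c = (r - 1) ^ n * m := by
  simp only [av, card_filter]
  rw [sum_comm]
  simp only [← card_filter, card_avoid]
  simp [mul_comm]

theorem count_eq {n m r : ℕ} (hr : 2 ≤ r) (W : Fin m → Fin n → Fin r) (w : Fin n → Fin r) :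
    (#{b | W b = w} : ℚ) = ∑ v, Kk w v * av W v := by
  simp only [av, card_filter]
  push_cast
  simp only [mul_sum]
  rw [sum_comm]
  refine sum_congr rfl fun b _ => ?_
  have := Kk_avoid hr (W b) w
  rw [← this, sum_filter]
  refine sum_congr rfl fun v _ => ?_
  rw [Kk_symm]
  simp only [ne_comm]
  split_ifs <;> simp

theorem all_occur {n m r L : ℕ} (hr : 2 ≤ r) (W : Fin m → Fin n → Fin r)
    (hL : ∀ c, L ≤ av W c)
    (hbig : ((r : ℚ) - 1) ^ n * (((r : ℚ) - 1) ^ n * m - (r : ℚ) ^ n * L) < L)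
    (w : Fin n → Fin r) : ∃ b, W b = w := by
  have h2 : (2 : ℚ) ≤ r := by exact_mod_cast hr
  have h1 := Kk_lower hr w L (fun v => av W v) (fun v => by exact_mod_cast hL v)
  rw [← count_eq hr] at h1
  have h3 : ∑ v, (av W v : ℚ) = ((r : ℚ) - 1) ^ n * m := by
    have := sum_av W
    have h4 : ((r - 1 : ℕ) : ℚ) = r - 1 := by
      rw [Nat.cast_sub (by omega)]
      simp
    rw [← h4]
    exact_mod_cast this
  rw [h3] at h1
  have hp : 0 < ((r : ℚ) - 1) ^ n := pow_pos (by linarith) _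
  have h5 : (0 : ℚ) < #{b | W b = w} := by
    refine lt_of_lt_of_le ?_ h1
    rw [inv_pow, sub_pos, ← div_eq_mul_inv, lt_div_iff₀ hp]
    linarith
  have h6 : 0 < #{b | W b = w} := by exact_mod_cast h5
  obtain ⟨b, hb⟩ := card_pos.mp h6
  exact ⟨b, (mem_filter.mp hb).2⟩

theorem exists_list {ι : Type} [Fintype ι] (f : ι → ℕ) {x : ℕ} (hx : ∑ w, f w = x) :
    ∃ W : Fin x → ι, ∀ (p : ι → Prop) [DecidablePred p], #{b | p (W b)} = ∑ w with p w, f w := by
  classical
  have hc : Fintype.card (Σ w, Fin (f w)) = x := by simp [hx]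
  let e := (Fintype.equivFinOfCardEq hc).symm
  refine ⟨fun b => (e b).1, fun p _ => ?_⟩
  have h1 : #{b | p (e b).1} = #{s : Σ w, Fin (f w) | p s.1} := by
    refine card_bij (fun b _ => e b) ?_ ?_ ?_
    · intro b hb
      simpa using hb
    · intro b _ b' _ h
      exact e.injective h
    · intro s hs
      exact ⟨e.symm s, by simpa using hs, by simp⟩
  rw [h1, card_filter, Fintype.sum_sigma, sum_filter]
  refine sum_congr rfl fun w _ => ?_
  split_ifs <;> simp

theorem Psi_ge {n r : ℕ} (hr : 0 < r) (x : ℕ) : (r - 1) ^ n * (x / r ^ n) ≤ Psi r n x := by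
  classical
  let w0 : Fin n → Fin r := fun _ => ⟨0, hr⟩
  obtain ⟨W, hW⟩ := exists_list (x := x)
    (fun w : Fin n → Fin r => x / r ^ n + if w = w0 then x % r ^ n else 0) (by
      rw [sum_add_distrib]
      simp [Nat.div_add_mod])
  refine le_Psi hr W fun c => ?_
  rw [av, hW fun w => ∀ a, w a ≠ c a, ← card_avoid c, card_eq_sum_ones, sum_mul]
  simp only [ne_comm]
  exact sum_le_sum fun w _ => by simp

theorem tp_eq_Psi {n m r : ℕ} (hr : 2 ≤ r) (hn : 1 ≤ n) (hm : 5 * r ^ (3 * n) ≤ m) :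
    tp r (K n m) = r + Psi r n (m - r) := by
  classical
  have hr0 : 0 < r := by omega
  have hP : r ≤ r ^ n := Nat.le_self_pow (by omega) r
  have hPn : n ≤ r ^ n := (Nat.lt_pow_self (by omega)).le
  have hP3 : r ^ (3 * n) = r ^ n * (r ^ n * r ^ n) := by ring
  have hP1 : r ^ n ≤ r ^ n * r ^ n := Nat.le_mul_self _
  have hP2 : r ^ n * r ^ n ≤ r ^ n * (r ^ n * r ^ n) := Nat.mul_le_mul_left _ hP1
  obtain ⟨x, rfl⟩ : ∃ x, m = r + x := ⟨m - r, by omega⟩
  rw [Nat.add_sub_cancel_left]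
  obtain ⟨W', hW'⟩ := Psi_spec hr0 n x
  obtain ⟨W, hW⟩ := lower_word W'
  refine tp_eq hr0 (fun χ => ?_) W fun c => (add_le_add le_rfl (hW' c)).trans (hW c)
  by_cases hc : ∃ c, n + av (vec χ) c ≤ r + Psi r n x
  · obtain ⟨c, hc⟩ := hc
    exact (star_part hr0 χ c).mono hc
  push Not at hc
  have hge := Psi_ge (n := n) hr0 x
  set P := r ^ n with hPdef
  set q := x / P with hq
  have hPpos : 0 < P := by omega
  have hq1 : x < P * (q + 1) := Nat.lt_mul_div_succ x hPpos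
  have hq2 : 3 * (P * P) ≤ q := by
    rw [hq, Nat.le_div_iff_mul_le hPpos]
    nlinarith
  have hQ : (r - 1) ^ n ≤ P := Nat.pow_le_pow_left (by omega) n
  have hQ1 : 1 ≤ (r - 1) ^ n := Nat.one_le_pow _ _ (by omega)
  set Q := (r - 1) ^ n with hQdef
  have hQq : q ≤ Q * q := Nat.le_mul_of_pos_left _ hQ1
  have hocc := all_occur (L := Q * q + r + 1 - n) hr (vec χ) (fun c => by
    have := hc c
    omega) (by
    have h4 : ((r : ℚ) - 1) ^ n = Q := by
      rw [hQdef, Nat.cast_pow, Nat.cast_sub (by omega)]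
      simp
    have h5 : (r : ℚ) ^ n = P := by rw [hPdef]; simp
    rw [h4, h5, Nat.cast_sub (by omega)]
    push_cast
    have a1 : (x : ℚ) + 1 ≤ P * (q + 1) := by exact_mod_cast hq1
    have a2 : 3 * ((P : ℚ) * P) ≤ q := by exact_mod_cast hq2
    have a3 : (Q : ℚ) ≤ P := by exact_mod_cast hQ
    have a4 : (1 : ℚ) ≤ Q := by exact_mod_cast hQ1
    have a5 : (n : ℚ) ≤ P := by exact_mod_cast hPn
    have a6 : (0 : ℚ) ≤ r := by positivity
    have a7 : (0 : ℚ) ≤ n := by positivity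
    have a8 : (1 : ℚ) ≤ P := a4.trans a3
    have b1 : (Q : ℚ) * (r + x) - P * (Q * q + r + 1 - n) ≤ 2 * (P * P) := by
      have c1 : (Q : ℚ) * (x + 1) ≤ Q * (P * (q + 1)) := mul_le_mul_of_nonneg_left a1 (by linarith)
      have c2 : (Q : ℚ) * r ≤ P * r := mul_le_mul_of_nonneg_right a3 a6
      have c3 : (P : ℚ) * n ≤ P * P := mul_le_mul_of_nonneg_left a5 (by linarith)
      have c4 : (Q : ℚ) * P ≤ P * P := mul_le_mul_of_nonneg_right a3 (by linarith)
      nlinarith
    have b2 : (Q : ℚ) * (Q * (r + x) - P * (Q * q + r + 1 - n)) ≤ Q * (2 * (P * P)) :=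
      mul_le_mul_of_nonneg_left b1 (by linarith)
    have b3 : (Q : ℚ) * (3 * (P * P)) ≤ Q * q := mul_le_mul_of_nonneg_left a2 (by linarith)
    have b4 : (P : ℚ) ≤ Q * (P * P) := by nlinarith
    nlinarith)
  choose hub hhub using fun i : Fin r => hocc fun _ => i
  have hinj : Function.Injective hub := by
    intro i j hij
    have h1 := congrFun (hhub i) ⟨0, hn⟩
    have h2 := congrFun (hhub j) ⟨0, hn⟩
    rw [hij] at h1
    exact h1.symm.trans h2
  obtain ⟨c, hc2⟩ := exists_le_Psi (x := x) hr0 ((univ.image hub)ᶜ) (by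
    rw [card_compl, card_image_of_injective _ hinj]
    simp) (vec χ)
  refine (hub_part hn χ hub (fun i a => congrFun (hhub i) a) c).mono (add_le_add le_rfl ?_)
  refine le_trans (le_of_eq ?_) hc2
  congr 1
  ext b
  simp

end Pool.Agent.MP_4e8562_co.H97
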