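import Mathlib
import Pool.Agent.MP_4e8562_co.H97.Kernel

/-!
The greedy bound `Psi ≤ F^[n]` and when it is attained.
-/

namespace Pool.Agent.MP_4e8562_co.H97

open Finset

theorem F_mono (r : ℕ) : Monotone (F r) := fun _ _ h =>
  Nat.div_le_div_right (Nat.mul_le_mul_left _ h)

theorem greedy {r : ℕ} (hr : 0 < r) {β : Type} (n : ℕ) : ∀ (S : Finset β) (W : β → Fin n → Fin r),
    ∃ c : Fin n → Fin r, #{b ∈ S | ∀ a, W b a ≠ c a} ≤ (F r)^[n] #S := by
  classical
  induction n with
  | zero => exact fun S W => ⟨Fin.elim0, card_filter_le _ _⟩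
  | succ n ih =>
    intro S W
    have h1 : ∑ i : Fin r, #{b ∈ S | W b 0 ≠ i} = (r - 1) * #S := by
      simp only [card_filter]
      rw [sum_comm]
      have : ∀ b, ∑ i : Fin r, (if W b 0 ≠ i then 1 else 0) = r - 1 := by
        intro b
        rw [← card_filter, filter_ne, card_erase_of_mem (mem_univ _)]
        simp
      simp only [this]
      simp [mul_comm]
    have : Nonempty (Fin r) := ⟨⟨0, hr⟩⟩
    obtain ⟨i, -, hi⟩ := exists_le_of_sum_le (s := (univ : Finset (Fin r))) univ_nonempty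
      (f := fun i => #{b ∈ S | W b 0 ≠ i} * r) (g := fun _ => (r - 1) * #S) (by
        rw [← sum_mul, h1]
        simp [mul_comm])
    have h2 : #{b ∈ S | W b 0 ≠ i} ≤ F r #S := (Nat.le_div_iff_mul_le hr).mpr hi
    obtain ⟨c, hc⟩ := ih {b ∈ S | W b 0 ≠ i} fun b a => W b a.succ
    refine ⟨Fin.cons i c, ?_⟩
    rw [Function.iterate_succ_apply]
    refine le_trans (le_of_eq ?_) (hc.trans ((F_mono r).iterate n h2))
    rw [filter_filter]
    congr 1
    ext b
    simp [Fin.forall_fin_succ]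

theorem Psi_le {r : ℕ} (hr : 0 < r) (n x : ℕ) : Psi r n x ≤ (F r)^[n] x := by
  obtain ⟨W, hW⟩ := Psi_spec hr n x
  obtain ⟨c, hc⟩ := greedy hr n univ W
  rw [card_univ, Fintype.card_fin] at hc
  exact (hW c).trans hc

theorem OA_count {r n i : ℕ} (hi : i ≤ n) (C : Finset (Fin n → Fin r))
    (hC : ∀ T : Finset (Fin n), #T = i → ∀ v : Fin n → Fin r,
      ∃! w, w ∈ C ∧ ∀ a ∈ T, w a = v a) (d : ℕ) :
    ∀ T : Finset (Fin n), #T + d = i → ∀ v : Fin n → Fin r,
      #{w ∈ C | ∀ a ∈ T, w a = v a} = r ^ d := by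
  classical
  induction d with
  | zero =>
    intro T hT v
    obtain ⟨w, hw1, hw2⟩ := hC T hT v
    rw [pow_zero, card_eq_one]
    refine ⟨w, ?_⟩
    ext u
    simp only [mem_filter, mem_singleton]
    exact ⟨hw2 u, fun h => h ▸ hw1⟩
  | succ d ih =>
    intro T hT v
    obtain ⟨a, -, ha⟩ := exists_mem_notMem_of_card_lt_card (s := T) (t := univ) (by
      rw [card_univ, Fintype.card_fin]
      omega)
    rw [card_eq_sum_card_fiberwise (f := fun w => w a) (t := univ) (by simp)]
    have : ∀ y : Fin r, #{w ∈ {w ∈ C | ∀ a ∈ T, w a = v a} | w a = y} = r ^ d := by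
      intro y
      rw [← ih (insert a T) (by rw [card_insert_of_notMem ha]; omega) (Function.update v a y),
        filter_filter]
      congr 1
      refine filter_congr fun w _ => ?_
      rw [forall_mem_insert, Function.update_self, and_comm]
      refine and_congr_right fun _ => forall₂_congr fun b hb => ?_
      rw [Function.update_of_ne (by rintro rfl; exact ha hb)]
    simp only [this]
    simp [pow_succ, mul_comm]

theorem univ_count {r n : ℕ} (T : Finset (Fin n)) (v : Fin n → Fin r) :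
    #{w : Fin n → Fin r | ∀ a ∈ T, w a = v a} = r ^ (n - #T) := by
  have hT : #T ≤ n := (card_le_univ T).trans (by simp)
  refine OA_count le_rfl univ (fun T hT v => ?_) _ T (by omega) v
  have : T = univ := eq_univ_of_card T (by simpa using hT)
  subst this
  exact ⟨v, ⟨mem_univ _, fun _ _ => rfl⟩, fun u hu => funext fun a => hu.2 a (mem_univ _)⟩

/-- remainders in the greedy iteration -/
def rho (r x i : ℕ) : ℕ := (r - 1) * (F r)^[i] x % r

theorem iter_identity {r : ℕ} (hr : 2 ≤ r) (x t d : ℕ) :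
    (((F r)^[t] x : ℕ) : ℚ) = ((r : ℚ) / (r - 1)) ^ d * ((F r)^[t + d] x : ℕ) +
      ∑ j ∈ range d, (rho r x (t + j) : ℚ) * r ^ j / (r - 1) ^ (j + 1) := by
  have hr' : (r : ℚ) - 1 ≠ 0 := by
    have : (2 : ℚ) ≤ r := by exact_mod_cast hr
    linarith
  induction d with
  | zero => simp
  | succ d ih =>
    rw [sum_range_succ, ih, ← add_assoc t d 1, Function.iterate_succ_apply']
    have h1 : r * F r ((F r)^[t + d] x) + rho r x (t + d) = (r - 1) * (F r)^[t + d] x :=
      Nat.div_add_mod _ _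
    have h2 : (r : ℚ) * F r ((F r)^[t + d] x) + rho r x (t + d) =
        (r - 1) * ((F r)^[t + d] x : ℕ) := by
      have h4 : ((r - 1 : ℕ) : ℚ) = r - 1 := by
        rw [Nat.cast_sub (by omega)]
        simp
      rw [← h4]
      exact_mod_cast h1
    have h3 : (((F r)^[t + d] x : ℕ) : ℚ) =
        ((r : ℚ) * F r ((F r)^[t + d] x) + rho r x (t + d)) / (r - 1) := by
      rw [h2]
      field_simp
    rw [h3]
    simp only [div_pow]
    field_simp
    ring

theorem Kk_expand {n r : ℕ} (w v : Fin n → Fin r) :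
    Kk w v = ∑ T : Finset (Fin n), (-1) ^ #T * (((r : ℚ) - 1)⁻¹) ^ (n - #T) *
      if ∀ a ∈ T, v a = w a then 1 else 0 := by
  have h1 : Kk w v = ∏ a, ((if v a = w a then (-1 : ℚ) else 0) + ((r : ℚ) - 1)⁻¹) := by
    refine prod_congr rfl fun a _ => ?_
    simp only [eq_comm (a := w a)]
    split_ifs <;> ring
  rw [h1, prod_add, powerset_univ]
  refine sum_congr rfl fun T _ => ?_
  rw [prod_const, card_sdiff_of_subset (subset_univ _), card_univ, Fintype.card_fin]
  by_cases h : ∀ a ∈ T, v a = w a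
  · rw [if_pos h, prod_congr rfl fun a ha => if_pos (h a ha), prod_const, mul_one]
  · rw [if_neg h]
    push Not at h
    obtain ⟨a, ha, hne⟩ := h
    rw [prod_eq_zero ha (if_neg hne)]
    simp

theorem Psi_eq_F {n r x : ℕ} (hr : 2 ≤ r) (hx : r ^ (3 * n) ≤ x)
    (h : ∀ i < n, HasOA r n i ∨ r ∣ (F r)^[i] x) : Psi r n x = (F r)^[n] x := by
  classical
  have hr0 : 0 < r := by omega
  refine le_antisymm (Psi_le hr0 n x) ?_
  have h2 : (2 : ℚ) ≤ r := by exact_mod_cast hr
  have hs : (r : ℚ) - 1 ≠ 0 := by linarith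
  have hs0 : 0 < (r : ℚ) - 1 := by linarith
  have hC : ∀ i, ∃ C : Finset (Fin n → Fin r), i < n → ∀ T : Finset (Fin n), #T ≤ i →
      ∀ v : Fin n → Fin r, rho r x i * #{w ∈ C | ∀ a ∈ T, w a = v a} =
        rho r x i * r ^ (i - #T) := by
    intro i
    by_cases hi : i < n
    · rcases h i hi with ⟨C, hC⟩ | h0
      · exact ⟨C, fun _ T hT v => by rw [OA_count hi.le C hC (i - #T) T (by omega) v]⟩
      · have : rho r x i = 0 := Nat.mod_eq_zero_of_dvd (h0.mul_left _)
        exact ⟨∅, fun _ T _ v => by simp [this]⟩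
    · exact ⟨∅, fun h => absurd h hi⟩
  choose C hC using hC
  set k := (F r)^[n] x with hk
  let f : (Fin n → Fin r) → ℚ := fun v =>
    k + ∑ i ∈ range n, (rho r x i : ℚ) * ((r - 1) ^ n / (r - 1) ^ (i + 1)) *
      if v ∈ C i then 1 else 0
  have hf : ∀ v, (k : ℚ) ≤ f v := fun v =>
    le_add_of_nonneg_right (sum_nonneg fun i _ => by
      refine mul_nonneg (by positivity) ?_
      split_ifs <;> norm_num)
  have hmarg : ∀ (T : Finset (Fin n)) (w : Fin n → Fin r),
      (((r : ℚ) - 1)⁻¹) ^ (n - #T) * ∑ v, (if ∀ a ∈ T, v a = w a then 1 else 0) * f v =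
        ((F r)^[#T] x : ℕ) + ∑ i ∈ range #T, (rho r x i : ℚ) * (r - 1) ^ (#T - (i + 1)) *
          #{v ∈ C i | ∀ a ∈ T, v a = w a} := by
    intro T w
    have hT : #T ≤ n := (card_le_univ T).trans (by simp)
    obtain ⟨d, hd⟩ : ∃ d, n = #T + d := ⟨n - #T, by omega⟩
    have hnd : n - #T = d := by omega
    have e1 : ∑ v, (if ∀ a ∈ T, v a = w a then (1 : ℚ) else 0) * f v =
        k * r ^ d + ∑ i ∈ range n, (rho r x i : ℚ) * ((r - 1) ^ n / (r - 1) ^ (i + 1)) *
          #{v ∈ C i | ∀ a ∈ T, v a = w a} := by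
      simp only [f, mul_add, sum_add_distrib, mul_sum]
      congr 1
      · rw [← sum_mul, sum_boole, univ_count, hnd]
        push_cast
        ring
      · rw [sum_comm]
        refine sum_congr rfl fun i _ => ?_
        have : ({v ∈ C i | ∀ a ∈ T, v a = w a} : Finset _) =
            ({v | (∀ a ∈ T, v a = w a) ∧ v ∈ C i} : Finset _) := by
          ext v
          simp [and_comm]
        rw [this, ← sum_boole, mul_sum]
        refine sum_congr rfl fun v _ => ?_
        by_cases h1 : ∀ a ∈ T, v a = w a <;> by_cases h3 : v ∈ C i <;> simp [h1, h3]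
    have e2 := iter_identity hr x #T d
    rw [← hd, ← hk] at e2
    rw [e1, e2, hnd]
    have e3 : ∑ i ∈ range n, (rho r x i : ℚ) * ((r - 1) ^ n / (r - 1) ^ (i + 1)) *
          #{v ∈ C i | ∀ a ∈ T, v a = w a} =
        ∑ i ∈ range (#T + d), (rho r x i : ℚ) * ((r - 1) ^ (#T + d) / (r - 1) ^ (i + 1)) *
          #{v ∈ C i | ∀ a ∈ T, v a = w a} := by
      rw [← hd]
    rw [e3, sum_range_add, mul_add, mul_add, mul_sum, mul_sum, add_assoc, add_comm (∑ j ∈ range d, _)]
    congr 1
    · rw [div_pow, inv_pow]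
      field_simp
    congr 1
    · refine sum_congr rfl fun i hi => ?_
      have hi' := mem_range.mp hi
      obtain ⟨e, he⟩ : ∃ e, #T = i + 1 + e := ⟨#T - (i + 1), by omega⟩
      generalize (#{v ∈ C i | ∀ a ∈ T, v a = w a} : ℚ) = z
      generalize #T = t at he
      subst he
      rw [Nat.add_sub_cancel_left, inv_pow]
      field_simp
      ring
    · refine sum_congr rfl fun j hj => ?_
      have hj' := mem_range.mp hj
      have e4 := hC (#T + j) (by omega) T (by omega) w
      rw [Nat.add_sub_cancel_left] at e4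
      have e5 : (rho r x (#T + j) : ℚ) * #{v ∈ C (#T + j) | ∀ a ∈ T, v a = w a} =
          rho r x (#T + j) * r ^ j := by exact_mod_cast e4
      rw [mul_right_comm, e5, inv_pow]
      field_simp
      ring
  let N : (Fin n → Fin r) → ℚ := fun w => ∑ v, Kk w v * f v
  have hint : ∀ w, N w ∈ (Int.castRingHom ℚ).range := by
    intro w
    have e1 : N w = ∑ T : Finset (Fin n), (-1) ^ #T * ((((r : ℚ) - 1)⁻¹) ^ (n - #T) *
        ∑ v, (if ∀ a ∈ T, v a = w a then 1 else 0) * f v) := by
      simp only [N, Kk_expand, sum_mul, mul_sum]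
      rw [sum_comm]
      exact sum_congr rfl fun T _ => sum_congr rfl fun v _ => by ring
    rw [e1]
    refine sum_mem fun T _ => mul_mem (pow_mem (neg_mem (one_mem _)) _) ?_
    rw [hmarg]
    exact add_mem (natCast_mem _ _) (sum_mem fun i _ => mul_mem (mul_mem (natCast_mem _ _)
      (pow_mem (sub_mem (natCast_mem _ _) (one_mem _)) _)) (natCast_mem _ _))
  have htot : ∑ v, f v = ((r : ℚ) - 1) ^ n * x := by
    have e1 := hmarg ∅ fun _ => ⟨0, hr0⟩
    simp only [card_empty, Nat.sub_zero, notMem_empty, IsEmpty.forall_iff, implies_true, if_true,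
      one_mul, range_zero, sum_empty, add_zero, Function.iterate_zero, id] at e1
    rw [← e1, inv_pow]
    field_simp
  have hnn : ∀ w, 0 ≤ N w := by
    intro w
    refine le_trans ?_ (Kk_lower hr w k f hf)
    rw [htot]
    have hge : (r - 1) ^ n * (x / r ^ n) ≤ k := (Psi_ge hr0 x).trans (Psi_le hr0 n x)
    have hPpos : 0 < r ^ n := pow_pos hr0 n
    have hq1 : x < r ^ n * (x / r ^ n + 1) := Nat.lt_mul_div_succ x hPpos
    have hq2 : r ^ n * r ^ n ≤ x / r ^ n := by
      rw [Nat.le_div_iff_mul_le hPpos]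
      calc _ = r ^ (3 * n) := by ring
        _ ≤ x := hx
    have h4 : ((r - 1 : ℕ) : ℚ) = r - 1 := by
      rw [Nat.cast_sub (by omega)]
      simp
    set q := x / r ^ n
    have a1 : ((r : ℚ) - 1) ^ n * q ≤ k := by
      rw [← h4]
      exact_mod_cast hge
    have a2 : (x : ℚ) ≤ r ^ n * (q + 1) := by exact_mod_cast hq1.le
    have a3 : (r : ℚ) ^ n * r ^ n ≤ q := by exact_mod_cast hq2
    have a4 : ((r : ℚ) - 1) ^ n ≤ r ^ n := pow_le_pow_left₀ hs0.le (by linarith) n
    have a5 : 0 < ((r : ℚ) - 1) ^ n := pow_pos hs0 n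
    rw [inv_pow, sub_nonneg, ← div_eq_mul_inv, le_div_iff₀ a5]
    set Q := ((r : ℚ) - 1) ^ n
    set P := (r : ℚ) ^ n
    have a6 : 0 < P := lt_of_lt_of_le a5 a4
    have b1 : Q * x - P * k ≤ P * Q := by nlinarith
    have b2 : P * Q ≤ q := by nlinarith
    nlinarith
  have hnat : ∀ w, ∃ z : ℕ, (z : ℚ) = N w := by
    intro w
    obtain ⟨z, hz⟩ := hint w
    have hz' : (z : ℚ) = N w := hz
    have : 0 ≤ z := by
      have := hnn w
      rw [← hz'] at this
      exact_mod_cast this
    lift z to ℕ using this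
    exact ⟨z, by exact_mod_cast hz'⟩
  choose M hM using hnat
  have hsum : ∑ w, M w = x := by
    have : ∑ w, N w = x := by
      simp only [N]
      rw [sum_comm]
      simp only [← sum_mul]
      have e1 : ∀ v : Fin n → Fin r, ∑ w, Kk w v = (((r : ℚ) - 1)⁻¹) ^ n := by
        intro v
        rw [← Kk_sum hr v]
        exact sum_congr rfl fun w _ => Kk_symm _ _
      simp only [e1]
      rw [← mul_sum, htot, inv_pow]
      field_simp
    rw [← sum_congr rfl fun w _ => hM w] at this
    exact_mod_cast this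
  obtain ⟨W, hW⟩ := exists_list M hsum
  refine le_Psi hr0 W fun c => ?_
  rw [av, hW fun w => ∀ a, w a ≠ c a]
  have e1 : ∑ w with (∀ a, w a ≠ c a), N w = f c := by
    simp only [N]
    rw [sum_comm]
    simp only [← sum_mul, Kk_avoid hr]
    simp
  have e2 := hf c
  rw [← e1, ← sum_congr rfl fun w _ => hM w] at e2
  exact_mod_cast e2

end Pool.Agent.MP_4e8562_co.H97
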