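import Mathlib
import Pool.Agent.MP_4e8562_co.H97.Closed

/-!
If the greedy bound is attained for a suitable `x`, an orthogonal array exists.
-/

namespace Pool.Agent.MP_4e8562_co.H97

open Finset

theorem F_mul {r : ℕ} (hr : 0 < r) (a : ℕ) : F r (r * a) = (r - 1) * a := by
  rw [F, mul_left_comm, Nat.mul_div_cancel_left _ hr]

theorem F_iter_mul {r : ℕ} (hr : 0 < r) (j : ℕ) : ∀ a, (F r)^[j] (r ^ j * a) = (r - 1) ^ j * a := by
  induction j with
  | zero => simp
  | succ j ih =>
    intro a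
    rw [Function.iterate_succ_apply, pow_succ', mul_assoc, F_mul hr, mul_left_comm, ih]
    ring

theorem marg_dvd {n m r : ℕ} (W : Fin m → Fin n → Fin r) (T : Finset (Fin n))
    (w : Fin n → Fin r) :
    (r - 1) ^ (n - #T) ∣ ∑ c with (∀ a ∈ T, c a = w a), av W c := by
  classical
  simp only [av, card_filter]
  rw [sum_comm]
  refine dvd_sum fun b _ => ?_
  rw [← card_filter, filter_filter]
  have : ({c | (∀ a ∈ T, c a = w a) ∧ ∀ a, W b a ≠ c a} : Finset (Fin n → Fin r)) =
      Fintype.piFinset fun a => if a ∈ T then ({w a} : Finset _).erase (W b a)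
        else univ.erase (W b a) := by
    ext c
    simp only [mem_filter, mem_univ, true_and, Fintype.mem_piFinset]
    constructor
    · rintro ⟨h1, h2⟩ a
      split_ifs with ha
      · exact mem_erase.mpr ⟨(h2 a).symm, mem_singleton.mpr (h1 a ha)⟩
      · exact mem_erase.mpr ⟨(h2 a).symm, mem_univ _⟩
    · intro h
      refine ⟨fun a ha => ?_, fun a => ?_⟩
      · have := h a
        rw [if_pos ha] at this
        exact mem_singleton.mp (mem_erase.mp this).2
      · have := h a
        split_ifs at this <;> exact (mem_erase.mp this).1.symm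
  rw [this, Fintype.card_piFinset, ← prod_mul_prod_compl T]
  refine Dvd.dvd.mul_left (dvd_of_eq ?_) _
  rw [prod_congr rfl (g := fun _ => r - 1) fun a ha => by
    rw [if_neg (mem_compl.mp ha), card_erase_of_mem (mem_univ _), card_univ, Fintype.card_fin]]
  rw [prod_const, card_compl, Fintype.card_fin]

theorem OA_of_Psi {r i e y z : ℕ} (hr : 3 ≤ r) (hyz : (r - 1) ^ (i + 1) * y = r ^ (e + 1) * z + 1)
    (h : (r - 1) ^ e * z ≤ Psi r (i + 1 + e) (r ^ i * y)) : HasOA r (i + 1 + e) i := by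
  classical
  have hr0 : 0 < r := by omega
  obtain ⟨W, hW⟩ := Psi_spec hr0 (i + 1 + e) (r ^ i * y)
  obtain ⟨s, rfl⟩ : ∃ s, r = s + 1 := ⟨r - 1, by omega⟩
  have hs : 2 ≤ s := by omega
  simp only [Nat.add_sub_cancel] at hyz h
  have hu : ∀ c, ∃ t, av W c = s ^ e * z + t := fun c =>
    Nat.exists_eq_add_of_le (h.trans (hW c))
  choose u hu using hu
  let U : Finset (Fin (i + 1 + e)) → (Fin (i + 1 + e) → Fin (s + 1)) → ℕ := fun T w =>
    ∑ c with (∀ a ∈ T, c a = w a), u c
  have hU : ∀ T w, s ^ (i + 1 + e - #T) ∣ (s + 1) ^ (i + 1 + e - #T) * (s ^ e * z) + U T w := by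
    intro T w
    have := marg_dvd W T w
    simp only [hu, sum_add_distrib, sum_const, univ_count, Nat.add_sub_cancel, smul_eq_mul] at this
    exact this
  have hse : 0 < s ^ e := pow_pos (by omega) e
  have hU1 : ∀ T w, #T = i + 1 → s ^ e ∣ U T w := by
    intro T w hT
    have := hU T w
    rw [hT, Nat.add_sub_cancel_left] at this
    exact (Nat.dvd_add_right ((dvd_mul_right _ _).mul_left _)).mp this
  have hU2 : ∀ T w, #T = i → s ^ e ≤ U T w := by
    intro T w hT
    have h1 := hU T w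
    rw [hT, show i + 1 + e - i = e + 1 by omega] at h1
    obtain ⟨A, hA⟩ := h1
    by_contra hlt
    push Not at hlt
    have h2 : s ^ e * (s * (s ^ i * y)) + U T w = s ^ e * (s * A) + s ^ e := by
      have h3 : s * (s ^ i * y) = (s + 1) ^ (e + 1) * z + 1 := by
        rw [← hyz]
        ring
      rw [h3]
      have h4 : s ^ e * (s * A) = s ^ (e + 1) * A := by ring
      rw [h4, ← hA]
      ring
    rcases le_or_gt (s ^ i * y) A with h5 | h5
    · have := Nat.mul_le_mul_left (s ^ e) (Nat.mul_le_mul_left s h5)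
      omega
    · have h6 : s * A + 2 ≤ s * (s ^ i * y) := by nlinarith
      have := Nat.mul_le_mul_left (s ^ e) h6
      rw [mul_add] at this
      omega
  have htot : ∑ c, u c = s ^ e * (s + 1) ^ i := by
    have h1 := sum_av W
    simp only [hu, sum_add_distrib, sum_const, card_univ, Fintype.card_pi, Fintype.card_fin,
      prod_const, smul_eq_mul, Nat.add_sub_cancel] at h1
    have h2 : s ^ (i + 1 + e) * ((s + 1) ^ i * y) =
        (s + 1) ^ (i + 1 + e) * (s ^ e * z) + s ^ e * (s + 1) ^ i := by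
      calc _ = s ^ e * (s + 1) ^ i * (s ^ (i + 1) * y) := by ring
        _ = _ := by
          rw [hyz]
          ring
    omega
  have hU3 : ∀ T w, #T = i → U T w = s ^ e := by
    intro T w hT
    have h1 : ∑ w, U T w = ∑ _w : Fin (i + 1 + e) → Fin (s + 1), s ^ e := by
      simp only [U, sum_filter]
      rw [sum_comm]
      have h2 : ∀ c : Fin (i + 1 + e) → Fin (s + 1),
          ∑ w : Fin (i + 1 + e) → Fin (s + 1), (if ∀ a ∈ T, c a = w a then u c else 0) =
            (s + 1) ^ (e + 1) * u c := by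
        intro c
        rw [← sum_filter, sum_const, smul_eq_mul]
        congr 1
        simp only [eq_comm (a := c _)]
        rw [univ_count, hT]
        congr 1
        omega
      simp only [h2]
      rw [← mul_sum, htot]
      simp
      ring
    exact ((sum_eq_sum_iff_of_le fun w _ => hU2 T w hT).mp h1.symm w (mem_univ _)).symm
  refine ⟨univ.filter fun c => u c ≠ 0, fun T hT v => ?_⟩
  have h1 : U T v ≠ 0 := by
    rw [hU3 T v hT]
    exact hse.ne'
  obtain ⟨p, hp, hp2⟩ := exists_ne_zero_of_sum_ne_zero h1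
  have hp1 := (mem_filter.mp hp).2
  refine ⟨p, ⟨by simpa using hp2, hp1⟩, ?_⟩
  rintro q ⟨hq, hq1⟩
  have hq2 : u q ≠ 0 := by simpa using hq
  by_contra hne
  obtain ⟨a, ha⟩ := Function.ne_iff.mp hne
  have haT : a ∉ T := fun h => ha ((hq1 a h).trans (hp1 a h).symm)
  have hT' : #(insert a T) = i + 1 := by rw [card_insert_of_notMem haT, hT]
  have hbig : ∀ c, u c ≠ 0 → s ^ e ≤ U (insert a T) c := by
    intro c hc
    refine Nat.le_of_dvd (Nat.pos_of_ne_zero fun h0 => hc ?_) (hU1 _ c hT')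
    exact sum_eq_zero_iff.mp h0 c (by simp)
  have hdis : Disjoint
      ({c | ∀ b ∈ insert a T, c b = p b} : Finset (Fin (i + 1 + e) → Fin (s + 1)))
      ({c | ∀ b ∈ insert a T, c b = q b} : Finset (Fin (i + 1 + e) → Fin (s + 1))) := by
    rw [disjoint_left]
    intro c h2 h3
    exact ha (((mem_filter.mp h3).2 a (mem_insert_self _ _)).symm.trans
      ((mem_filter.mp h2).2 a (mem_insert_self _ _)))
  have h4 : U (insert a T) p + U (insert a T) q ≤ U T v := by
    simp only [U]
    rw [← sum_union hdis]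
    refine sum_le_sum_of_subset fun c hc => mem_filter.mpr ⟨mem_univ _, fun b hb => ?_⟩
    rcases mem_union.mp hc with h5 | h5
    · exact ((mem_filter.mp h5).2 b (mem_insert_of_mem hb)).trans (hp1 b hb)
    · exact ((mem_filter.mp h5).2 b (mem_insert_of_mem hb)).trans (hq1 b hb)
  have h5 := hbig p hp2
  have h6 := hbig q hq2
  rw [hU3 T v hT] at h4
  omega

theorem exists_test {r n i : ℕ} (hr : 3 ≤ r) (hi : i < n) (B : ℕ) :
    ∃ x, B ≤ x ∧ (∀ j < n, j ≠ i → r ∣ (F r)^[j] x) ∧
      (Psi r n x = (F r)^[n] x → HasOA r n i) := by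
  have hr0 : 0 < r := by omega
  obtain ⟨e, rfl⟩ : ∃ e, n = i + 1 + e := ⟨n - (i + 1), by omega⟩
  have hcop : Nat.Coprime ((r - 1) ^ (i + 1)) (r ^ (e + 1)) := by
    refine Nat.Coprime.pow _ _ ?_
    obtain ⟨s, rfl⟩ : ∃ s, r = s + 1 := ⟨r - 1, by omega⟩
    simp
  have h1 : 1 < r ^ (e + 1) := Nat.one_lt_pow (by omega) (by omega)
  obtain ⟨y0, -, hy0⟩ := Nat.exists_mul_mod_eq_one_of_coprime hcop h1
  set z0 := (r - 1) ^ (i + 1) * y0 / r ^ (e + 1)
  have h2 : r ^ (e + 1) * z0 + 1 = (r - 1) ^ (i + 1) * y0 := by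
    have := Nat.div_add_mod ((r - 1) ^ (i + 1) * y0) (r ^ (e + 1))
    rwa [hy0] at this
  have hyz : (r - 1) ^ (i + 1) * (y0 + r ^ (e + 1) * B) =
      r ^ (e + 1) * (z0 + (r - 1) ^ (i + 1) * B) + 1 := by
    rw [mul_add, ← h2]
    ring
  set y := y0 + r ^ (e + 1) * B with hy
  set z := z0 + (r - 1) ^ (i + 1) * B
  have h3 : (F r)^[i + 1] (r ^ i * y) = r ^ e * z := by
    rw [Function.iterate_succ_apply', F_iter_mul hr0]
    have h4 : (r - 1) * ((r - 1) ^ i * y) = 1 + r * (r ^ e * z) := by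
      calc _ = (r - 1) ^ (i + 1) * y := by ring
        _ = _ := by
          rw [hyz]
          ring
    rw [F, h4, Nat.add_mul_div_left _ _ hr0, Nat.div_eq_of_lt (by omega), zero_add]
  refine ⟨r ^ i * y, ?_, fun j hj hji => ?_, fun h => OA_of_Psi hr hyz (le_of_eq ?_)⟩
  · calc B ≤ r ^ (e + 1) * B := Nat.le_mul_of_pos_left _ (by omega)
      _ ≤ y := Nat.le_add_left _ _
      _ ≤ r ^ i * y := Nat.le_mul_of_pos_left _ (pow_pos hr0 i)
  · rcases Nat.lt_or_gt_of_ne hji with h4 | h4
    · obtain ⟨d, hd⟩ : ∃ d, i = j + (d + 1) := ⟨i - (j + 1), by omega⟩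
      rw [show r ^ i = r ^ j * r ^ (d + 1) by rw [hd, pow_add], mul_assoc, F_iter_mul hr0]
      exact ((dvd_pow_self r (by omega)).mul_right y).mul_left _
    · obtain ⟨d, rfl⟩ : ∃ d, j = d + (i + 1) := ⟨j - (i + 1), by omega⟩
      obtain ⟨d', hd'⟩ : ∃ d', e = d + (d' + 1) := ⟨e - (d + 1), by omega⟩
      rw [Function.iterate_add_apply, h3, show r ^ e = r ^ d * r ^ (d' + 1) by rw [hd', pow_add],
        mul_assoc, F_iter_mul hr0]
      exact ((dvd_pow_self r (by omega)).mul_right z).mul_left _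
  · rw [h, add_comm (i + 1) e, Function.iterate_add_apply, h3, F_iter_mul hr0]

end Pool.Agent.MP_4e8562_co.H97
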