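import Mathlib
import Pool.Agent.MP_4e8562_co.H97.Defs

/-!
Classical constructions of orthogonal arrays of index one: extended Reed-Solomon codes and
products.
-/

namespace Pool.Agent.MP_4e8562_co.H97

open Finset Polynomial

/-- orthogonal arrays over an arbitrary alphabet -/
def OAg (α : Type) (n i : ℕ) : Prop :=
  ∃ C : Set (Fin n → α), ∀ T : Finset (Fin n), #T = i → ∀ v : Fin n → α,
    ∃! w, w ∈ C ∧ ∀ a ∈ T, w a = v a

theorem OAg.equiv {α β : Type} {n i : ℕ} (h : OAg α n i) (e : α ≃ β) : OAg β n i := by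
  obtain ⟨C, hC⟩ := h
  refine ⟨{w | (fun a => e.symm (w a)) ∈ C}, fun T hT v => ?_⟩
  obtain ⟨w, ⟨hw1, hw2⟩, hw3⟩ := hC T hT fun a => e.symm (v a)
  refine ⟨fun a => e (w a), ⟨by simpa using hw1, fun a ha => by simp [hw2 a ha]⟩, ?_⟩
  rintro u ⟨hu1, hu2⟩
  have := hw3 (fun a => e.symm (u a)) ⟨hu1, fun a ha => by simp [hu2 a ha]⟩
  funext a
  rw [← this]
  simp

theorem OAg.prod {α β : Type} {n i : ℕ} (h : OAg α n i) (h' : OAg β n i) : OAg (α × β) n i := by
  obtain ⟨C, hC⟩ := h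
  obtain ⟨D, hD⟩ := h'
  refine ⟨{w | (fun a => (w a).1) ∈ C ∧ (fun a => (w a).2) ∈ D}, fun T hT v => ?_⟩
  obtain ⟨w, ⟨hw1, hw2⟩, hw3⟩ := hC T hT fun a => (v a).1
  obtain ⟨z, ⟨hz1, hz2⟩, hz3⟩ := hD T hT fun a => (v a).2
  refine ⟨fun a => (w a, z a), ⟨⟨hw1, hz1⟩, fun a ha => Prod.ext (hw2 a ha) (hz2 a ha)⟩, ?_⟩
  rintro u ⟨⟨hu1, hu2⟩, hu3⟩
  have h1 := hw3 _ ⟨hu1, fun a ha => by simp [hu3 a ha]⟩
  have h2 := hz3 _ ⟨hu2, fun a ha => by simp [hu3 a ha]⟩
  funext a
  rw [← h1, ← h2]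

theorem OAg.hasOA {r n i : ℕ} (h : OAg (Fin r) n i) : HasOA r n i := by
  classical
  obtain ⟨C, hC⟩ := h
  refine ⟨C.toFinset, fun T hT v => ?_⟩
  simpa using hC T hT v

theorem OAg_field (E : Type) [Field E] [Finite E] {n : ℕ} (hn : n ≤ Nat.card E + 1) (i : ℕ) :
    OAg E n i := by
  classical
  have := Fintype.ofFinite E
  obtain ⟨e⟩ : Nonempty (Fin n ↪ Option E) :=
    Function.Embedding.nonempty_of_card_le (by simpa using hn)
  let word : E[X] → Fin n → E := fun p a => (e a).elim (p.coeff (i - 1)) fun x => p.eval x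
  have hsub : ∀ p q a, word (p - q) a = word p a - word q a := by
    intro p q a
    simp only [word]
    cases e a <;> simp
  refine ⟨{w | ∃ p ∈ degreeLT E i, word p = w}, fun T hT v => ?_⟩
  have hzero : ∀ p ∈ degreeLT E i, (∀ a ∈ T, word p a = 0) → p = 0 := by
    intro p hp h0
    rw [mem_degreeLT] at hp
    have hev : ∀ x ∈ (T.map e).eraseNone, p.eval x = 0 := by
      intro x hx
      obtain ⟨a, ha, hax⟩ := mem_map.mp (mem_eraseNone.mp hx)
      have := h0 a ha
      simpa [word, hax] using this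
    refine eq_zero_of_degree_lt_of_eval_finset_eq_zero _ ?_ hev
    by_cases hnone : none ∈ T.map e
    · rw [card_eraseNone_of_mem hnone, card_map, hT]
      obtain ⟨a, ha, hax⟩ := mem_map.mp hnone
      have h1 : p.coeff (i - 1) = 0 := by simpa [word, hax] using h0 a ha
      rw [degree_lt_iff_coeff_zero] at hp ⊢
      intro k hk
      rcases Nat.eq_or_lt_of_le hk with h | h
      · rw [← h, h1]
      · exact hp k (by omega)
    · rwa [card_eraseNone_of_not_mem hnone, card_map, hT]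
  let Φ : degreeLT E i → (T → E) := fun p a => word p.1 a.1
  have hinj : Function.Injective Φ := by
    intro p q hpq
    have := hzero (p.1 - q.1) (sub_mem p.2 q.2) fun a ha => by
      rw [hsub, sub_eq_zero]
      exact congrFun hpq ⟨a, ha⟩
    exact Subtype.ext (sub_eq_zero.mp this)
  have eqv : degreeLT E i ≃ (T → E) :=
    (degreeLTEquiv E i).toEquiv.trans (Fintype.equivOfCardEq (by simp [hT]))
  have : Finite (degreeLT E i) := Finite.of_equiv _ eqv.symm
  have hsurj : Function.Surjective Φ := (Finite.injective_iff_surjective_of_equiv eqv).mp hinj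
  obtain ⟨p, hp⟩ := hsurj fun a => v a.1
  refine ⟨word p.1, ⟨⟨p.1, p.2, rfl⟩, fun a ha => congrFun hp ⟨a, ha⟩⟩, ?_⟩
  rintro u ⟨⟨q, hq, rfl⟩, hu⟩
  have : (⟨q, hq⟩ : degreeLT E i) = p := hinj (by
    rw [hp]
    funext a
    exact hu a.1 a.2)
  rw [← this]

theorem OAg_fin (n i r : ℕ) (hr : r ≠ 0)
    (h : ∀ p, p.Prime → p ∣ r → n ≤ p ^ r.factorization p + 1) : OAg (Fin r) n i := by
  induction r using Nat.recOnPosPrimePosCoprime with
  | prime_pow p k hp hk =>
    have := Fact.mk hp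
    have hc := GaloisField.card p k hk.ne'
    have h1 := h p hp (dvd_pow_self p hk.ne')
    rw [hp.factorization_pow, Finsupp.single_eq_same] at h1
    exact (OAg_field (GaloisField p k) (by rw [hc]; exact h1) i).equiv (Finite.equivFinOfCardEq hc)
  | zero => exact absurd rfl hr
  | one =>
    refine ⟨Set.univ, fun T _ v => ⟨v, ⟨trivial, fun _ _ => rfl⟩, fun u _ => Subsingleton.elim _ _⟩⟩
  | coprime a b ha hb hab iha ihb =>
    refine ((iha (by omega) fun p hp hpa => ?_).prod (ihb (by omega) fun p hp hpb => ?_)).equiv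
      finProdFinEquiv
    · have := h p hp (hpa.mul_right b)
      rwa [Nat.factorization_eq_of_coprime_left hab
        ((Nat.mem_primeFactorsList (by omega)).mpr ⟨hp, hpa⟩)] at this
    · have := h p hp (hpb.mul_left a)
      rwa [Nat.factorization_eq_of_coprime_right hab
        ((Nat.mem_primeFactorsList (by omega)).mpr ⟨hp, hpb⟩)] at this

end Pool.Agent.MP_4e8562_co.H97
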