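import Mathlib
import Pool.Agent.MP_4e8562_co.H97.Converse
import Pool.Agent.MP_4e8562_co.H97.OA

/-!
Periodicity of `Psi`, and the parity-check array.
-/

namespace Pool.Agent.MP_4e8562_co.H97

open Finset

theorem hasOA_pred {r n : ℕ} (hr : 0 < r) : HasOA r (n + 1) n := by
  classical
  have : NeZero r := ⟨hr.ne'⟩
  refine ⟨univ.filter fun w => ∑ a, w a = 0, fun T hT v => ?_⟩
  obtain ⟨a, ha⟩ : ∃ a, Tᶜ = {a} := card_eq_one.mp (by rw [card_compl, hT]; simp)
  have haT : a ∉ T := mem_compl.mp (ha ▸ mem_singleton_self a)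
  have hsum : ∀ w : Fin (n + 1) → Fin r, ∑ b, w b = ∑ b ∈ T, w b + w a := by
    intro w
    rw [← sum_add_sum_compl T, ha, sum_singleton]
  have hne : ∀ b ∈ T, b ≠ a := fun b hb h => haT (h ▸ hb)
  refine ⟨Function.update v a (-∑ b ∈ T, v b), ⟨?_, fun b hb => ?_⟩, ?_⟩
  · rw [mem_filter, hsum, Function.update_self,
      sum_congr rfl fun b hb => Function.update_of_ne (hne b hb) _ _]
    simp
  · exact Function.update_of_ne (hne b hb) _ _
  · rintro u ⟨hu1, hu2⟩
    have h1 := (mem_filter.mp hu1).2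
    rw [hsum, sum_congr rfl hu2] at h1
    funext b
    by_cases hb : b ∈ T
    · rw [Function.update_of_ne (hne b hb), hu2 b hb]
    · have : b = a := mem_singleton.mp (ha ▸ mem_compl.mpr hb)
      rw [this, Function.update_self]
      exact eq_neg_of_add_eq_zero_right h1

theorem large_sub {n m r : ℕ} (hn : 1 ≤ n) (hm : 5 * r ^ (3 * n) ≤ m) : r ^ (3 * n) ≤ m - r := by
  have : r ≤ r ^ (3 * n) := Nat.le_self_pow (by omega) r
  omega

theorem Psi_add {n r x : ℕ} (hr : 2 ≤ r) (hx : r ^ (3 * n) ≤ x) :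
    Psi r n (x + r ^ n) = Psi r n x + (r - 1) ^ n := by
  classical
  have hr0 : 0 < r := by omega
  apply le_antisymm
  · obtain ⟨W, hW⟩ := Psi_spec hr0 n (x + r ^ n)
    have hge := Psi_ge (n := n) hr0 (x + r ^ n)
    have hPpos : 0 < r ^ n := pow_pos hr0 n
    rw [Nat.add_div_right _ hPpos] at hge
    have hq1 : x < r ^ n * (x / r ^ n + 1) := Nat.lt_mul_div_succ x hPpos
    have hq2 : r ^ n * r ^ n ≤ x / r ^ n := by
      rw [Nat.le_div_iff_mul_le hPpos]
      calc _ = r ^ (3 * n) := by ring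
        _ ≤ x := hx
    set q := x / r ^ n
    have hocc := all_occur (L := (r - 1) ^ n * (q + 1)) hr W (fun c => hge.trans (hW c)) (by
      have h2 : (2 : ℚ) ≤ r := by exact_mod_cast hr
      push_cast [Nat.cast_sub (show 1 ≤ r by omega)]
      have a2 : (x : ℚ) ≤ r ^ n * (q + 1) := by exact_mod_cast hq1.le
      have a3 : (r : ℚ) ^ n * r ^ n ≤ q := by exact_mod_cast hq2
      have a4 : ((r : ℚ) - 1) ^ n ≤ r ^ n := pow_le_pow_left₀ (by linarith) (by linarith) n
      have a5 : 0 < ((r : ℚ) - 1) ^ n := pow_pos (by linarith) n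
      set Q := ((r : ℚ) - 1) ^ n
      set P := (r : ℚ) ^ n
      have a6 : 0 < P := lt_of_lt_of_le a5 a4
      refine mul_lt_mul_of_pos_left ?_ a5
      nlinarith)
    choose sec hsec using hocc
    have hinj : Function.Injective sec := fun v w h => by rw [← hsec v, h, hsec]
    obtain ⟨c, hc⟩ := exists_le_Psi (x := x) hr0 ((univ.image sec)ᶜ) (by
      rw [card_compl, card_image_of_injective _ hinj]
      simp) W
    refine (hW c).trans (le_trans ?_ (add_le_add hc le_rfl))
    have hsub : ({b | ∀ a, W b a ≠ c a} : Finset _) ⊆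
        {b ∈ (univ.image sec)ᶜ | ∀ a, W b a ≠ c a} ∪
          ({v | ∀ a, c a ≠ v a} : Finset (Fin n → Fin r)).image sec := by
      intro b hb
      have hb' := (mem_filter.mp hb).2
      by_cases h : b ∈ univ.image sec
      · obtain ⟨v, -, rfl⟩ := mem_image.mp h
        rw [hsec] at hb'
        exact mem_union_right _ (mem_image_of_mem _
          (mem_filter.mpr ⟨mem_univ _, fun a => (hb' a).symm⟩))
      · exact mem_union_left _ (mem_filter.mpr ⟨mem_compl.mpr h, hb'⟩)
    refine (card_le_card hsub).trans ((card_union_le _ _).trans (add_le_add le_rfl ?_))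
    exact card_image_le.trans (card_avoid c).le
  · obtain ⟨W, hW⟩ := Psi_spec hr0 n x
    obtain ⟨V, hV⟩ := exists_list (x := r ^ n) (fun _ : Fin n → Fin r => 1) (by simp)
    refine le_Psi hr0 (Fin.append W V) fun c => ?_
    have h1 : av (Fin.append W V) c = av W c + av V c := by
      simp only [av, card_filter]
      rw [Fin.sum_univ_add]
      simp
    have h2 : av V c = (r - 1) ^ n := by
      rw [av, hV fun w => ∀ a, w a ≠ c a, ← card_avoid c, card_eq_sum_ones]
      simp only [ne_comm]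
    rw [h1, h2]
    exact add_le_add (hW c) le_rfl

end Pool.Agent.MP_4e8562_co.H97
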